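import Mathlib

/-!
# Two lemmas for `MP_807a54_ag` (handoff of helper16)

* `T1_range_le`: closed immersion criterion with an averaging projection.
* `T3_exists_lift`: lifting along an algebraic extension of characteristic zero to dual numbers.
-/

namespace Pool.Agent.Helper19.EndoT1

universe u v w

/-- Lifting of a surjection of rings with nilpotent kernel along an algebraic extension of
fields of characteristic zero. -/
theorem exists_lift_aux {κ : Type u} {L : Type v} {B : Type w} [Field κ] [CharZero κ] [Field L]
    [Algebra κ L] [Algebra.IsAlgebraic κ L] [CommRing B] (f : κ →+* B) (g : B →+* L)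
    (hg : Function.Surjective g) (hn : IsNilpotent (RingHom.ker g))
    (hfg : ∀ x, g (f x) = algebraMap κ L x) :
    ∃ ψ : L →+* B, (∀ x, g (ψ x) = x) ∧ ∀ x : κ, ψ (algebraMap κ L x) = f x := by
  let _ : Algebra κ B := f.toAlgebra
  have : Algebra.IsSeparable κ L := inferInstance
  have : Algebra.FormallyEtale κ L := Algebra.FormallyEtale.of_isSeparable κ L
  let g' : B →ₐ[κ] L := { g with commutes' := fun x => hfg x }
  have hn' : IsNilpotent (RingHom.ker (g' : B →+* L)) := hn
  refine ⟨(Algebra.FormallySmooth.liftOfSurjective (AlgHom.id κ L) g' hg hn' : L →ₐ[κ] B),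
    fun x => ?_, fun x => ?_⟩
  · exact Algebra.FormallySmooth.liftOfSurjective_apply (AlgHom.id κ L) g' hg hn' x
  · exact (Algebra.FormallySmooth.liftOfSurjective (AlgHom.id κ L) g' hg hn').commutes x

theorem T3_exists_lift {κ L : Type*} [Field κ] [CharZero κ] [Field L] [Algebra κ L]
    [Algebra.IsAlgebraic κ L]
    (φ : κ →+* TrivSqZeroExt L L) (hφ : ∀ x, (φ x).fst = algebraMap κ L x) :
    ∃ ψ : L →+* TrivSqZeroExt L L, (∀ x, (ψ x).fst = x) ∧
      ∀ x : κ, ψ (algebraMap κ L x) = φ x := by
  refine exists_lift_aux φ (TrivSqZeroExt.fstHom L L L : TrivSqZeroExt L L →+* L) ?_ ?_ hφ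
  · intro x
    exact ⟨TrivSqZeroExt.inl x, by simp⟩
  · refine ⟨2, ?_⟩
    rw [pow_two, Ideal.zero_eq_bot, eq_bot_iff, Ideal.mul_le]
    intro r hr s hs
    have hr' : r.fst = 0 := hr
    have hs' : s.fst = 0 := hs
    rw [Ideal.mem_bot]
    ext <;> simp [hr', hs']

/-- Over an algebraically closed field, a maximal ideal of an algebra of finite type is the
kernel of an algebra homomorphism to the field. -/
theorem exists_point {L C : Type*} [Field L] [IsAlgClosed L] [CommRing C] [Algebra L C]
    [Algebra.FiniteType L C] (m : Ideal C) [hm : m.IsMaximal] :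
    ∃ p : C →ₐ[L] L, RingHom.ker (p : C →+* L) = m := by
  let := Ideal.Quotient.field m
  have hfin : Module.Finite L (C ⧸ m) := finite_of_finite_type_of_isJacobsonRing L (C ⧸ m)
  have hbij : Function.Bijective (algebraMap L (C ⧸ m)) :=
    IsAlgClosed.algebraMap_bijective_of_isIntegral
  let e : L ≃ₐ[L] (C ⧸ m) := AlgEquiv.ofBijective (Algebra.ofId L (C ⧸ m)) hbij
  refine ⟨(e.symm : (C ⧸ m) →ₐ[L] L).comp (Ideal.Quotient.mkₐ L m), ?_⟩
  ext x
  rw [RingHom.mem_ker]
  change e.symm (Ideal.Quotient.mk m x) = 0 ↔ x ∈ m
  rw [map_eq_zero_iff _ e.symm.injective, Ideal.Quotient.eq_zero_iff_mem]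

/-- Unramifiedness at a point: the maximal ideal of a point is generated by `a` up to its
square. -/
theorem maximal_le_sup {L C : Type*} [Field L] [CommRing C] [Algebra L C]
    (B : Subalgebra L C) (a : Ideal C)
    (hunr : ∀ Φ : C →ₐ[L] TrivSqZeroExt L L, (∀ b ∈ B, (Φ b).snd = 0) → ∀ x, (Φ x).snd = 0)
    (p : C →ₐ[L] L) (hpB : ∀ b ∈ B, b - algebraMap L C (p b) ∈ a) :
    RingHom.ker (p : C →+* L) ≤
      a ⊔ RingHom.ker (p : C →+* L) • RingHom.ker (p : C →+* L) := by
  intro z hz
  by_contra hcon
  set m : Ideal C := RingHom.ker (p : C →+* L) with hm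
  have hmem : ∀ x, x - algebraMap L C (p x) ∈ m := by
    intro x
    rw [hm, RingHom.mem_ker]
    change p (x - algebraMap L C (p x)) = 0
    rw [map_sub, AlgHom.commutes, Algebra.algebraMap_self, RingHom.id_apply, sub_self]
  obtain ⟨l, hlz, hl⟩ := Submodule.exists_le_ker_of_notMem
    (p := (a ⊔ m • m).restrictScalars L) (v := z) hcon
  have hl0 : ∀ x ∈ a ⊔ m • m, l x = 0 := fun x hx => hl hx
  have hmul : ∀ x y, l (x * y - algebraMap L C (p (x * y))) =
      p x * l (y - algebraMap L C (p y)) + p y * l (x - algebraMap L C (p x)) := by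
    intro x y
    have h1 : x * y - algebraMap L C (p (x * y)) =
        (x - algebraMap L C (p x)) * (y - algebraMap L C (p y)) +
        (p x • (y - algebraMap L C (p y)) + p y • (x - algebraMap L C (p x))) := by
      rw [map_mul, map_mul, Algebra.smul_def, Algebra.smul_def]; ring
    have h2 : l ((x - algebraMap L C (p x)) * (y - algebraMap L C (p y))) = 0 :=
      hl0 _ (Ideal.mem_sup_right (Submodule.smul_mem_smul (hmem x) (hmem y)))
    rw [h1, map_add, h2, zero_add, map_add, map_smul, map_smul, smul_eq_mul, smul_eq_mul]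
  let Φ : C →ₐ[L] TrivSqZeroExt L L :=
    { toFun := fun x => TrivSqZeroExt.inl (p x) +
        TrivSqZeroExt.inr (l (x - algebraMap L C (p x)))
      map_one' := by ext <;> simp
      map_zero' := by ext <;> simp
      map_add' := fun x y => by
        ext
        · simp only [TrivSqZeroExt.fst_add, TrivSqZeroExt.fst_inl, TrivSqZeroExt.fst_inr,
            add_zero, map_add]
        · have h3 : (x + y) - algebraMap L C (p (x + y)) =
              (x - algebraMap L C (p x)) + (y - algebraMap L C (p y)) := by
            rw [map_add, map_add]; ring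
          simp only [TrivSqZeroExt.snd_add, TrivSqZeroExt.snd_inl, TrivSqZeroExt.snd_inr,
            zero_add]
          rw [h3, map_add]
      map_mul' := fun x y => by
        ext
        · simp
        · simp only [TrivSqZeroExt.snd_add, TrivSqZeroExt.snd_inl, TrivSqZeroExt.snd_inr,
            zero_add, TrivSqZeroExt.snd_mul, TrivSqZeroExt.fst_add, TrivSqZeroExt.fst_inl,
            TrivSqZeroExt.fst_inr, add_zero, smul_eq_mul, op_smul_eq_smul]
          rw [hmul]
      commutes' := fun r => by
        ext
        · simp [TrivSqZeroExt.algebraMap_eq_inl]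
        · simp [TrivSqZeroExt.algebraMap_eq_inl] }
  have hΦ : ∀ x, (Φ x).snd = l (x - algebraMap L C (p x)) := by
    intro x
    change (TrivSqZeroExt.inl (p x) +
        TrivSqZeroExt.inr (l (x - algebraMap L C (p x)))).snd = _
    simp
  have h2 := hunr Φ (fun b hb => by
    rw [hΦ]; exact hl0 _ (Ideal.mem_sup_left (hpB b hb))) z
  rw [hΦ] at h2
  have hz' : p z = 0 := hz
  rw [hz', map_zero, sub_zero] at h2
  exact hlz h2

theorem T1_range_le {L C : Type*} [Field L] [IsAlgClosed L] [CommRing C] [Algebra L C]
    [Algebra.FiniteType L C] (B : Subalgebra L C) (hB : B.FG)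
    (hint : ∀ x : C, IsIntegral B x) (π : C →ₗ[B] C)
    (hπB : ∀ b : B, π (b : C) = b) (hπ2 : ∀ x, π (π x) = π x)
    (hfib : ∀ p q : C →ₐ[L] L, (∀ b ∈ B, p b = q b) → ∀ x, p (π x) = q (π x))
    (hunr : ∀ Φ : C →ₐ[L] TrivSqZeroExt L L, (∀ b ∈ B, (Φ b).snd = 0) → ∀ x, (Φ x).snd = 0) :
    ∀ x, π x ∈ B := by
  have : Algebra.IsIntegral B C := ⟨hint⟩
  have : Algebra.FiniteType L B := (Subalgebra.fg_iff_finiteType B).1 hB
  have : IsNoetherianRing B := Algebra.FiniteType.isNoetherianRing L B
  have : IsNoetherianRing C := Algebra.FiniteType.isNoetherianRing L C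
  have : Algebra.FiniteType B C := Algebra.FiniteType.of_restrictScalars_finiteType L B C
  have : Module.Finite B C := Algebra.IsIntegral.finite
  set S : Submodule B C := LinearMap.range π with hS
  set N : Submodule B C := LinearMap.range (Algebra.linearMap B C) with hN
  have hSfg : S.FG := by
    rw [hS, LinearMap.range_eq_map]
    exact (Module.finite_def.1 ‹Module.Finite B C›).map π
  -- the local statement
  have key : ∀ n : Ideal B, n.IsMaximal → S ≤ N ⊔ n • S := by
    intro n hn
    have hmapS : (n • (⊤ : Submodule B C)).map π = n • S := by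
      rw [Submodule.map_smul'', hS, LinearMap.range_eq_map]
    by_cases htop : n.map (algebraMap B C) = ⊤
    · have h1 : n • (⊤ : Submodule B C) = ⊤ := by
        rw [Ideal.smul_top_eq_map, htop]; rfl
      rw [← hmapS, h1, ← LinearMap.range_eq_map]
      exact le_sup_right
    · obtain ⟨m0, hm0, hle0⟩ := Ideal.exists_le_maximal _ htop
      obtain ⟨p0, hp0⟩ := exists_point (L := L) m0
      -- points over `n` agree with `p0` on `B`
      have hpt : ∀ p : C →ₐ[L] L, n.map (algebraMap B C) ≤ RingHom.ker (p : C →+* L) →
          ∀ b ∈ B, (b - algebraMap L C (p b)) ∈ n.map (algebraMap B C) := by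
        intro p hp b hb
        have hker : (RingHom.ker (p : C →+* L)).comap (algebraMap B C) = n := by
          symm
          refine hn.eq_of_le ?_ (Ideal.map_le_iff_le_comap.1 hp)
          intro h
          have : (1 : B) ∈ (RingHom.ker (p : C →+* L)).comap (algebraMap B C) := by
            rw [h]; trivial
          rw [Ideal.mem_comap, map_one, RingHom.mem_ker, map_one] at this
          exact one_ne_zero this
        have h3 : (⟨b, hb⟩ - algebraMap L B (p b) : B) ∈ n := by
          rw [← hker, Ideal.mem_comap, RingHom.mem_ker]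
          change p (b - algebraMap L C (p b)) = 0
          rw [map_sub, AlgHom.commutes, Algebra.algebraMap_self, RingHom.id_apply, sub_self]
        exact Ideal.mem_map_of_mem (algebraMap B C) h3
      have hle0' : n.map (algebraMap B C) ≤ RingHom.ker (p0 : C →+* L) := by rw [hp0]; exact hle0
      have hagree : ∀ p : C →ₐ[L] L, n.map (algebraMap B C) ≤ RingHom.ker (p : C →+* L) →
          ∀ b ∈ B, p b = p0 b := by
        intro p hp b hb
        have h4 := hp (hpt p0 hle0' b hb)
        rw [RingHom.mem_ker] at h4
        change p (b - algebraMap L C (p0 b)) = 0 at h4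
        rw [map_sub, AlgHom.commutes, Algebra.algebraMap_self, RingHom.id_apply, sub_eq_zero] at h4
        exact h4
      rintro _ ⟨x, rfl⟩
      set t : L := p0 (π x) with ht
      set y : C := π x - algebraMap L C t with hy
      have hya : y ∈ n.map (algebraMap B C) := by
        by_contra hya
        -- the annihilator of `y` modulo `a`
        let J : Ideal C := (n.map (algebraMap B C)).colon {y}
        have hJ : J ≠ ⊤ := by
          intro h
          apply hya
          have h1 : (1 : C) ∈ J := by rw [h]; trivial
          have := Submodule.mem_colon_singleton.1 h1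
          simpa using this
        obtain ⟨m, hm, hJm⟩ := Ideal.exists_le_maximal J hJ
        obtain ⟨p, hp⟩ := exists_point (L := L) m
        have haJ : n.map (algebraMap B C) ≤ J := by
          intro c hc
          exact Submodule.mem_colon_singleton.2 (Ideal.mul_mem_right _ _ hc)
        have ham : n.map (algebraMap B C) ≤ RingHom.ker (p : C →+* L) := by
          rw [hp]; exact haJ.trans hJm
        have hpx : p (π x) = t := hfib p p0 (hagree p ham) x
        have hym : y ∈ m := by
          rw [← hp, RingHom.mem_ker]
          change p (π x - algebraMap L C t) = 0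
          rw [map_sub, AlgHom.commutes, Algebra.algebraMap_self, RingHom.id_apply, hpx, sub_self]
        have hsup := maximal_le_sup B _ hunr p (hpt p ham)
        rw [hp] at hsup
        obtain ⟨r, hr, hrm⟩ := Submodule.exists_sub_one_mem_and_smul_le_of_fg_of_le_sup
          (R := C) (M := C) (I := m) (N := n.map (algebraMap B C)) (N' := m) (P := m)
          ((isNoetherianRing_iff_ideal_fg C).1 inferInstance m) le_rfl hsup
        have hry : r * y ∈ n.map (algebraMap B C) :=
          hrm (Submodule.smul_mem_pointwise_smul y r m hym)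
        have hrJ : r ∈ J := Submodule.mem_colon_singleton.2 hry
        have h1 : (1 : C) ∈ m := by
          have := m.sub_mem (hJm hrJ) hr
          simpa using this
        exact hm.ne_top ((Ideal.eq_top_iff_one m).2 h1)
      have htB : algebraMap L C t ∈ B := B.algebraMap_mem t
      have hπy : π y = y := by
        rw [hy, map_sub, hπ2]
        congr 1
        exact hπB ⟨_, htB⟩
      have hy2 : y ∈ n • S := by
        rw [← hmapS, ← hπy]
        refine Submodule.mem_map_of_mem ?_
        rw [Ideal.smul_top_eq_map]
        exact hya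
      have : π x = algebraMap L C t + y := by rw [hy]; ring
      rw [this]
      exact Submodule.add_mem_sup ⟨⟨_, htB⟩, rfl⟩ hy2
  -- globalisation
  have hcol : (N.colon (S : Set C)) = ⊤ := by
    by_contra hne
    obtain ⟨n, hn, hle⟩ := Ideal.exists_le_maximal _ hne
    obtain ⟨r, hr, hrS⟩ := Submodule.exists_sub_one_mem_and_smul_le_of_fg_of_le_sup
      (R := B) (M := C) (I := n) (N := N) (N' := S) (P := S) hSfg le_rfl (key n hn)
    have hrc : r ∈ N.colon (S : Set C) := by
      rw [Submodule.mem_colon]
      intro s hs
      exact hrS (Submodule.smul_mem_pointwise_smul s r S hs)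
    have h1 : (1 : B) ∈ n := by
      have := n.sub_mem (hle hrc) hr
      simpa using this
    exact hn.ne_top ((Ideal.eq_top_iff_one n).2 h1)
  intro x
  have h1 : (1 : B) ∈ N.colon (S : Set C) := by rw [hcol]; trivial
  have h2 := (Submodule.mem_colon.1 h1) (π x) ⟨x, rfl⟩
  rw [one_smul] at h2
  obtain ⟨b, hb⟩ := h2
  rw [← hb]
  exact b.2

end Pool.Agent.Helper19.EndoT1
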