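import Mathlib

/-!
# Finite orbits on curves without separated multiples: the objects of the problem
-/

open Polynomial
open scoped Polynomial.Bivariate LinearAlgebra.Projectivization

namespace Pool.Agent.Helper19.Orbits

/-! ## The objects of the problem -/

section statement

variable (K : Type*) [Field K]

/-- The embedding `K(x) → K(x, y)`; here `K[X][Y] = K[x][y]`, inner variable `x`, outer
variable `y`. -/
noncomputable def inX : FractionRing K[X] →+* FractionRing K[X][Y] :=
  IsFractionRing.map (A := K[X]) (B := K[X][Y]) (j := (C : K[X] →+* K[X][Y])) C_injective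

/-- The embedding `K(y) → K(x, y)`, sending the variable to the outer variable `y`. -/
noncomputable def inY : FractionRing K[X] →+* FractionRing K[X][Y] :=
  IsFractionRing.map (A := K[X]) (B := K[X][Y]) (j := mapRingHom (C : K →+* K[X]))
    (map_injective C C_injective)

variable {K}

/-- The set `⟨p⟩` of rational functions in `K(x, y)` whose reduced denominator is not divisible by
`p` and whose reduced numerator is a multiple of `p`. -/
def multiplesOf (p : K[X][Y]) : Set (FractionRing K[X][Y]) :=
  {q | ¬ p ∣ (IsFractionRing.den K[X][Y] q : K[X][Y]) ∧ p ∣ IsFractionRing.num K[X][Y] q}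

/-- The field `F(p)` of separated multiples, as a set of pairs `(f, g) ∈ K(x) × K(y)`. -/
def separatedMultiples (p : K[X][Y]) : Set (FractionRing K[X] × FractionRing K[X]) :=
  {fg | inX K fg.1 - inY K fg.2 ∈ multiplesOf p}

/-- `F(p)` is trivial: it consists only of constant pairs `(c, c)`. -/
def IsTrivialF (p : K[X][Y]) : Prop :=
  ∀ fg ∈ separatedMultiples p, ∃ c : K,
    fg = (algebraMap K (FractionRing K[X]) c, algebraMap K (FractionRing K[X]) c)

/-- The degree of `p` in `x`. -/
noncomputable def degX (p : K[X][Y]) : ℕ := (Bivariate.swap p).natDegree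

/-- The degree of `p` in `y`. -/
noncomputable def degY (p : K[X][Y]) : ℕ := p.natDegree

/-- The value at `(u, v) = ((x₀, x₁), (y₀, y₁))` of the bihomogenization
`x₀ ^ degX p * y₀ ^ degY p * p(x₁ / x₀, y₁ / y₀)`. -/
noncomputable def bihom (p : K[X][Y]) (u v : Fin 2 → K) : K :=
  ∑ j ∈ Finset.range (degY p + 1), ∑ i ∈ Finset.range (degX p + 1),
    (p.coeff j).coeff i * (u 0 ^ (degX p - i) * u 1 ^ i) * (v 0 ^ (degY p - j) * v 1 ^ j)

/-- The curve `C ⊆ ℙ¹ × ℙ¹` of `p`. -/
def curve (p : K[X][Y]) : Set (ℙ K (Fin 2 → K) × ℙ K (Fin 2 → K)) :=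
  {P | bihom p P.1.rep P.2.rep = 0}

/-- Two different points of `C` are joined by an edge if they have the same first coordinate or
the same second coordinate. -/
def moveGraph (p : K[X][Y]) : SimpleGraph (curve p) where
  Adj P Q := P ≠ Q ∧ (P.1.1 = Q.1.1 ∨ P.1.2 = Q.1.2)
  symm := ⟨fun _ _ h => ⟨h.1.symm, h.2.imp Eq.symm Eq.symm⟩⟩
  loopless := ⟨fun _ h => h.1 rfl⟩

/-- The set of finite orbits of `C`. -/
def finiteOrbits (p : K[X][Y]) : Set (moveGraph p).ConnectedComponent :=
  {c | c.supp.Finite}

end statement

end Pool.Agent.Helper19.Orbits
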