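import Pool.Agent.Helper19.OrbitDefs

/-!
# Finite orbits on curves without separated multiples

Let `K` be an algebraically closed field of characteristic `0` and let `p ∈ K[x, y]` be irreducible
and not in `K[x] ∪ K[y]`. We prove: if the field `F(p)` of separated multiples is trivial, then the
curve `C ⊆ ℙ¹ × ℙ¹` defined by `p` has only finitely many finite orbits, in fact at most
`4 * deg_x p * deg_y p + 1`.

Idea of the proof. Let `O₁ ≠ O₂` be two finite orbits all of whose points are affine and all of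
whose fibres (in both directions) are unramified. The products `∏ (x - a)` over the first
coordinates of `O₁`, `O₂`, and the products `∏ (y - b)` over the second coordinates, combine to
`f ∈ K(x)`, `g ∈ K(y)` of degree `0` such that `f(x)` and `g(y)` have the same value at every
valuation of the function field of `C` which is trivial on `K`. So `f(x) / g(y)` is constant, and
`(f, c g)` is a non-constant element of `F(p)`. All other finite orbits meet the fibres over the
zeros of the resultants of `p` with its partial derivatives or over infinity, and each such fibre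
meets only one orbit.
-/

open Polynomial
open scoped Polynomial.Bivariate LinearAlgebra.Projectivization

namespace Pool.Agent.Helper19.Orbits

universe u

/-! ## Valuations of a field containing `K` -/

variable {K L Γ : Type*} [Field K] [Field L] [Algebra K L] [LinearOrderedCommGroupWithZero Γ]

section val
variable (v : Valuation L Γ) (hv : ∀ c : K, v (algebraMap K L c) ≤ 1)
include hv

lemma v_const {c : K} (hc : c ≠ 0) : v (algebraMap K L c) = 1 := by
  apply le_antisymm (hv c)
  have h1 := hv c⁻¹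
  have h2 : v (algebraMap K L c) * v (algebraMap K L c⁻¹) = 1 := by
    rw [← map_mul, ← map_mul, mul_inv_cancel₀ hc, map_one, map_one]
  by_contra h
  push Not at h
  have h3 : v (algebraMap K L c) * v (algebraMap K L c⁻¹) < 1 := by
    calc v (algebraMap K L c) * v (algebraMap K L c⁻¹) ≤ v (algebraMap K L c) * 1 := by gcongr
      _ < 1 := by simpa using h
  exact absurd h2 h3.ne

lemma v_aeval_le {x : L} (hx : v x ≤ 1) (g : K[X]) : v (aeval x g) ≤ 1 := by
  rw [aeval_eq_sum_range]
  apply Valuation.map_sum_le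
  intro i _
  rw [Algebra.smul_def, map_mul, map_pow]
  calc _ ≤ (1:Γ) * 1 := by gcongr; exact hv _; exact pow_le_one₀ zero_le hx
    _ = 1 := one_mul 1

lemma v_le_of_sub {x : L} {a : K} (hx : v (x - algebraMap K L a) ≤ 1) : v x ≤ 1 := by
  have : x = (x - algebraMap K L a) + algebraMap K L a := by ring
  rw [this]
  exact (v.map_add _ _).trans (max_le hx (hv a))

lemma v_aeval_sub {x : L} {a : K} (hx : v (x - algebraMap K L a) ≤ 1) (g : K[X]) :
    v (aeval x g - algebraMap K L (g.eval a)) ≤ v (x - algebraMap K L a) := by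
  obtain ⟨q, hq⟩ := X_sub_C_dvd_sub_C_eval (a := a) (p := g)
  have h1 : aeval x g - algebraMap K L (g.eval a) = (x - algebraMap K L a) * aeval x q := by
    have := congrArg (aeval x) hq
    simpa using this
  rw [h1, map_mul]
  calc _ ≤ v (x - algebraMap K L a) * 1 := by
        gcongr; exact v_aeval_le v hv (v_le_of_sub v hv hx) q
    _ = _ := mul_one _

/-- if `x` is close to `a` and `g(a) ≠ 0` then `g(x)` is a unit -/
lemma v_aeval_eq_one {x : L} {a : K} (hx : v (x - algebraMap K L a) < 1) {g : K[X]}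
    (hg : g.eval a ≠ 0) : v (aeval x g) = 1 := by
  have h1 := v_aeval_sub v hv hx.le g
  have h2 : aeval x g = algebraMap K L (g.eval a) + (aeval x g - algebraMap K L (g.eval a)) := by
    ring
  rw [h2, v.map_add_eq_of_lt_left, v_const v hv hg]
  rw [v_const v hv hg]
  exact h1.trans_lt hx

/-- centre is unique -/
lemma center_unique {x : L} {a a' : K} (hx : v (x - algebraMap K L a) < 1)
    (hx' : v (x - algebraMap K L a') < 1) : a = a' := by
  by_contra h
  have := v_const v hv (sub_ne_zero.mpr h)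
  have h2 : algebraMap K L (a - a') = (x - algebraMap K L a') - (x - algebraMap K L a) := by
    rw [map_sub]; ring
  rw [h2] at this
  have h3 := v.map_sub (x - algebraMap K L a') (x - algebraMap K L a)
  rw [this] at h3
  exact absurd h3 (not_le.mpr (max_lt hx' hx))

/-- if `x` is not close to `a`, then `v (x-a) = max 1 (v x)`. -/
lemma v_sub_eq {x : L} {a : K} (hx : ¬ v (x - algebraMap K L a) < 1) :
    v (x - algebraMap K L a) = max 1 (v x) := by
  rcases le_or_gt (v x) 1 with h | h
  · rw [max_eq_left h]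
    apply le_antisymm _ (not_lt.mp hx)
    exact (v.map_sub _ _).trans (max_le h (hv a))
  · rw [max_eq_right h.le]
    apply v.map_sub_eq_of_lt_left
    exact (hv a).trans_lt h

end val

section key
variable (v : Valuation L Γ) (hv : ∀ c : K, v (algebraMap K L c) ≤ 1)

/-- The fibre polynomial `p(a, Y)`. -/
noncomputable def fib (p : K[X][Y]) (a : K) : K[X] := p.map (evalRingHom a)

lemma fib_eval (p : K[X][Y]) (a b : K) : (fib p a).eval b = p.evalEval a b := by
  rw [fib, map_evalRingHom_eval]

lemma aevalAeval_map_C (x y : L) (g : K[X]) : aevalAeval x y (g.map C : K[X][Y]) = aeval y g := by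
  rw [← Bivariate.swap_C, Bivariate.aevalAeval_swap]
  simp

lemma exists_fib_decomp (p : K[X][Y]) (a : K) :
    ∃ q : K[X][Y], p = (fib p a).map C + C (X - C a) * q := by
  have h : C (X - C a) ∣ p - (fib p a).map C := by
    rw [C_dvd_iff_dvd_coeff]
    intro i
    rw [coeff_sub, coeff_map, fib, coeff_map, coe_evalRingHom]
    exact X_sub_C_dvd_sub_C_eval
  obtain ⟨q, hq⟩ := h
  exact ⟨q, by rw [← hq]; ring⟩

include hv

lemma v_aevalAeval_le {x y : L} (hx : v x ≤ 1) (hy : v y ≤ 1) (q : K[X][Y]) :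
    v (aevalAeval x y q) ≤ 1 := by
  induction q using Polynomial.induction_on' with
  | add p q hp hq => rw [map_add]; exact (v.map_add _ _).trans (max_le hp hq)
  | monomial n g =>
    have : aevalAeval x y (monomial n g) = aeval x g * y ^ n := by simp
    rw [this, map_mul, map_pow]
    calc _ ≤ (1:Γ) * 1 := by
          gcongr; exact v_aeval_le v hv hx g; exact pow_le_one₀ zero_le hy
      _ = 1 := one_mul 1

/-- If `x` is centred at `a` and the fibre over `a` has full degree, `y` is finite. -/
lemma v_y_le_one {p : K[X][Y]} {x y : L} (hxy : aevalAeval x y p = 0) {a : K}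
    (hx : v (x - algebraMap K L a) < 1) (hdeg : (fib p a).natDegree = p.natDegree)
    (hp0 : fib p a ≠ 0) : v y ≤ 1 := by
  by_contra hy
  push Not at hy
  have hx1 : v x ≤ 1 := v_le_of_sub v hv hx.le
  have hsum : aevalAeval x y p = ∑ j ∈ Finset.range (p.natDegree + 1), aeval x (p.coeff j) * y ^ j := by
    conv_lhs => rw [p.as_sum_range]
    rw [map_sum]
    apply Finset.sum_congr rfl
    intro j _
    simp
  rw [hsum, Finset.sum_range_succ] at hxy
  have hlead : v (aeval x (p.coeff p.natDegree) * y ^ p.natDegree) = v y ^ p.natDegree := by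
    rw [map_mul, map_pow, v_aeval_eq_one v hv hx, one_mul]
    have h1 : (fib p a).coeff p.natDegree ≠ 0 := by
      rw [← hdeg]; exact leadingCoeff_ne_zero.mpr hp0
    simpa [fib, coeff_map] using h1
  have hlow : v (∑ j ∈ Finset.range p.natDegree, aeval x (p.coeff j) * y ^ j) < v y ^ p.natDegree := by
    apply Valuation.map_sum_lt
    · exact pow_ne_zero _ (by rintro h; rw [h] at hy; exact absurd hy (by simp))
    intro j hj
    rw [Finset.mem_range] at hj
    rw [map_mul, map_pow]
    calc v (aeval x (p.coeff j)) * v y ^ j ≤ 1 * v y ^ j := by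
          gcongr; exact v_aeval_le v hv hx1 _
      _ = v y ^ j := one_mul _
      _ < v y ^ p.natDegree := pow_lt_pow_right₀ hy hj
  have := v.map_add_eq_of_lt_left (hlow.trans_eq hlead.symm)
  rw [add_comm, hxy, map_zero, hlead] at this
  exact absurd this.symm (pow_ne_zero _ (by rintro h; rw [h] at hy; exact absurd hy (by simp)))

lemma exists_center_y [IsAlgClosed K] {p : K[X][Y]} {x y : L} (hxy : aevalAeval x y p = 0) {a : K}
    (hx : v (x - algebraMap K L a) < 1) (hdeg : (fib p a).natDegree = p.natDegree)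
    (hp0 : fib p a ≠ 0) (hsep : (fib p a).Separable) :
    ∃ b : K, p.evalEval a b = 0 ∧ v (y - algebraMap K L b) ≤ v (x - algebraMap K L a) := by
  have hx1 : v x ≤ 1 := v_le_of_sub v hv hx.le
  have hy1 : v y ≤ 1 := v_y_le_one v hv hxy hx hdeg hp0
  obtain ⟨q, hq⟩ := exists_fib_decomp p a
  have h1 : v (aeval y (fib p a)) ≤ v (x - algebraMap K L a) := by
    have h2 : aeval y (fib p a) + (x - algebraMap K L a) * aevalAeval x y q = 0 := by
      have := congrArg (aevalAeval x y) hq
      rw [hxy] at this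
      rw [map_add, map_mul] at this
      rw [this]
      congr 1
      · exact (aevalAeval_map_C x y _).symm
      · simp
    have h3 : aeval y (fib p a) = - ((x - algebraMap K L a) * aevalAeval x y q) := by
      linear_combination h2
    rw [h3, Valuation.map_neg, map_mul]
    calc _ ≤ v (x - algebraMap K L a) * 1 := by
          gcongr; exact v_aevalAeval_le v hv hx1 hy1 q
      _ = _ := mul_one _
  -- find a root b close to y
  have h2 : ∃ b ∈ (fib p a).roots, v (y - algebraMap K L b) < 1 := by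
    by_contra hcon
    push Not at hcon
    have hs : (fib p a) = C (fib p a).leadingCoeff * ((fib p a).roots.map (X - C ·)).prod :=
      (IsAlgClosed.splits (fib p a)).eq_prod_roots
    have h3 : 1 ≤ v (aeval y (fib p a)) := by
      rw [hs, map_mul, map_mul, aeval_C, v_const v hv (leadingCoeff_ne_zero.mpr hp0), one_mul,
        map_multiset_prod, map_multiset_prod, Multiset.map_map, Multiset.map_map]
      apply Multiset.one_le_prod
      intro z hz
      rw [Multiset.mem_map] at hz
      obtain ⟨b, hb, rfl⟩ := hz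
      simpa using hcon b hb
    exact absurd (h3.trans h1) (not_le.mpr hx)
  obtain ⟨b, hb, hyb⟩ := h2
  have hroot : (fib p a).IsRoot b := (mem_roots hp0).mp hb
  refine ⟨b, by rw [← fib_eval]; exact hroot, ?_⟩
  obtain ⟨r, hr⟩ := dvd_iff_isRoot.mpr hroot
  have hrb : r.eval b ≠ 0 := by
    intro hrb
    have hd := hsep.eval₂_derivative_ne_zero (RingHom.id K) (x := b) (by simpa using hroot)
    apply hd
    rw [hr]
    simp [eval₂_id, derivative_mul, hrb]
  have h4 : v (aeval y (fib p a)) = v (y - algebraMap K L b) := by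
    rw [hr, map_mul, map_mul, v_aeval_eq_one v hv hyb hrb, mul_one]
    simp
  rw [← h4]; exact h1

end key


section pairs
open Bivariate

/-- A pair of finite sets of affine coordinates that is saturated for the curve and such that all
the fibres over it are unramified and finite. -/
structure GoodPair (p : K[X][Y]) (S T : Finset K) : Prop where
  sat : ∀ a b, p.evalEval a b = 0 → (a ∈ S ↔ b ∈ T)
  goodS : ∀ a ∈ S, (fib p a).natDegree = p.natDegree ∧ fib p a ≠ 0 ∧ (fib p a).Separable
  goodT : ∀ b ∈ T, (fib (swap p) b).natDegree = (swap p).natDegree ∧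
    fib (swap p) b ≠ 0 ∧ (fib (swap p) b).Separable

lemma evalEval_swap (p : K[X][Y]) (a b : K) : (swap p).evalEval a b = p.evalEval b a := by
  have h := Bivariate.aevalAeval_swap a b p
  rwa [coe_aevalAeval_eq_evalEval, coe_aevalAeval_eq_evalEval] at h

lemma GoodPair.swap {p : K[X][Y]} {S T : Finset K} (h : GoodPair p S T) :
    GoodPair (Bivariate.swap p) T S where
  sat a b hab := by
    rw [evalEval_swap] at hab
    exact (h.sat b a hab).symm
  goodS := h.goodT
  goodT := by
    rw [swap_swap_apply]; exact h.goodS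

lemma prod_center [DecidableEq K] (v : Valuation L Γ) (hv : ∀ c : K, v (algebraMap K L c) ≤ 1)
    {x : L} {a : K} (hx : v (x - algebraMap K L a) < 1) {S : Finset K} (ha : a ∈ S) :
    v (∏ a ∈ S, (x - algebraMap K L a)) = max 1 (v x) ^ S.card * v (x - algebraMap K L a) := by
  rw [max_eq_left (v_le_of_sub v hv hx.le), one_pow, one_mul, map_prod,
    ← Finset.mul_prod_erase S _ ha]
  rw [Finset.prod_eq_one, mul_one]
  intro a' ha'
  have hne : a' ≠ a := Finset.ne_of_mem_erase ha'
  have h1 : ¬ v (x - algebraMap K L a') < 1 := fun h => hne (center_unique v hv h hx)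
  rw [v_sub_eq v hv h1, max_eq_left (v_le_of_sub v hv hx.le)]

lemma prod_not_center (v : Valuation L Γ) (hv : ∀ c : K, v (algebraMap K L c) ≤ 1)
    {x : L} {S : Finset K} (hS : ∀ a ∈ S, ¬ v (x - algebraMap K L a) < 1) :
    v (∏ a ∈ S, (x - algebraMap K L a)) = max 1 (v x) ^ S.card * 1 := by
  rw [map_prod, mul_one, Finset.prod_congr rfl (fun a ha => v_sub_eq v hv (hS a ha)),
    Finset.prod_const]

lemma GoodPair.exists_e [IsAlgClosed K] {p : K[X][Y]} {S T : Finset K} (h : GoodPair p S T)
    (v : Valuation L Γ) (hv : ∀ c : K, v (algebraMap K L c) ≤ 1) {x y : L}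
    (hxy : aevalAeval x y p = 0) (hxK : ∀ a : K, x ≠ algebraMap K L a) :
    ∃ e : Γ, e ≠ 0 ∧ v (∏ a ∈ S, (x - algebraMap K L a)) = max 1 (v x) ^ S.card * e ∧
      v (∏ b ∈ T, (y - algebraMap K L b)) = max 1 (v y) ^ T.card * e := by
  classical
  have key : ∀ b ∈ T, v (y - algebraMap K L b) < 1 →
      ∃ a ∈ S, v (x - algebraMap K L a) ≤ v (y - algebraMap K L b) := by
    intro b hb hyb
    have hyx : aevalAeval y x (Bivariate.swap p) = 0 := by
      rw [Bivariate.aevalAeval_swap]; exact hxy
    obtain ⟨h1, h2, h3⟩ := h.goodT b hb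
    obtain ⟨a, ha, hab⟩ := exists_center_y v hv hyx hyb h1 h2 h3
    rw [evalEval_swap] at ha
    exact ⟨a, (h.sat a b ha).mpr hb, hab⟩
  by_cases hS : ∃ a ∈ S, v (x - algebraMap K L a) < 1
  · obtain ⟨a, ha, hxa⟩ := hS
    obtain ⟨h1, h2, h3⟩ := h.goodS a ha
    obtain ⟨b, hb, hba⟩ := exists_center_y v hv hxy hxa h1 h2 h3
    have hbT : b ∈ T := (h.sat a b hb).mp ha
    have hyb : v (y - algebraMap K L b) < 1 := hba.trans_lt hxa
    obtain ⟨a', ha', hab'⟩ := key b hbT hyb
    have : a = a' := center_unique v hv hxa (hab'.trans_lt hyb)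
    subst this
    have heq : v (y - algebraMap K L b) = v (x - algebraMap K L a) := le_antisymm hba hab'
    refine ⟨v (x - algebraMap K L a), ?_, prod_center v hv hxa ha, ?_⟩
    · rw [Valuation.ne_zero_iff]
      exact sub_ne_zero.mpr (hxK a)
    · rw [← heq]; exact prod_center v hv hyb hbT
  · push Not at hS
    refine ⟨1, one_ne_zero, prod_not_center v hv (fun a ha => not_lt.mpr (hS a ha)),
      prod_not_center v hv (fun b hb hyb => ?_)⟩
    obtain ⟨a, ha, hab⟩ := key b hb hyb
    exact absurd (hab.trans_lt hyb) (not_lt.mpr (hS a ha))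

lemma GoodPair.card [IsAlgClosed K] {p : K[X][Y]} {S T : Finset K} (h : GoodPair p S T) :
    S.card * p.natDegree = T.card * (Bivariate.swap p).natDegree := by
  classical
  apply Finset.card_mul_eq_card_mul (fun a b => p.evalEval a b = 0)
  · intro a ha
    obtain ⟨h1, h2, h3⟩ := h.goodS a ha
    have : Finset.bipartiteAbove (fun a b => p.evalEval a b = 0) T a = (fib p a).roots.toFinset := by
      ext b
      simp only [Finset.mem_bipartiteAbove, Multiset.mem_toFinset, mem_roots h2, IsRoot.def,
        fib_eval]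
      exact ⟨fun h => h.2, fun h' => ⟨(h.sat a b h').mp ha, h'⟩⟩
    rw [this, Multiset.toFinset_card_of_nodup (nodup_roots h3),
      ← (IsAlgClosed.splits (fib p a)).natDegree_eq_card_roots, h1]
  · intro b hb
    obtain ⟨h1, h2, h3⟩ := h.goodT b hb
    have : Finset.bipartiteBelow (fun a b => p.evalEval a b = 0) S b =
        (fib (Bivariate.swap p) b).roots.toFinset := by
      ext a
      simp only [Finset.mem_bipartiteBelow, Multiset.mem_toFinset, mem_roots h2, IsRoot.def,
        fib_eval, evalEval_swap]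
      exact ⟨fun h => h.2, fun h' => ⟨(h.sat a b h').mpr hb, h'⟩⟩
    rw [this, Multiset.toFinset_card_of_nodup (nodup_roots h3),
      ← (IsAlgClosed.splits (fib (Bivariate.swap p) b)).natDegree_eq_card_roots, h1]


lemma mem_range_of_forall_valuation [IsAlgClosed K] (h : L)
    (H : ∀ V : ValuationSubring L, (∀ c : K, algebraMap K L c ∈ V) → h ∈ V) :
    ∃ c : K, h = algebraMap K L c := by
  have h1 : h ∈ (integralClosure (Subring.closure (Set.range (algebraMap K L))) L).toSubring := by
    rw [← iInf_valuationSubring_superset]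
    rw [Subring.mem_iInf]
    rintro ⟨V, hV⟩
    exact H V (fun c => hV ⟨c, rfl⟩)
  have h2 : IsIntegral (Subring.closure (Set.range (algebraMap K L))) h := h1
  have h3 : IsIntegral K h := by
    obtain ⟨q, hq, hq0⟩ := h2
    have hcl : Subring.closure (Set.range (algebraMap K L)) = (algebraMap K L).range := by
      rw [← RingHom.coe_range, Subring.closure_eq]
    have hsub : ∀ z : Subring.closure (Set.range (algebraMap K L)), ∃ c : K, algebraMap K L c = z := by
      rintro ⟨z, hz⟩
      rw [hcl] at hz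
      exact hz
    have hlift : q.map (Subring.subtype _) ∈ Polynomial.lifts (algebraMap K L) := by
      rw [Polynomial.lifts_iff_coeff_lifts]
      intro n
      rw [coeff_map]
      obtain ⟨c, hc⟩ := hsub (q.coeff n)
      exact ⟨c, hc⟩
    have hmon : (q.map (Subring.subtype (Subring.closure (Set.range (algebraMap K L))))).Monic :=
      hq.map _
    obtain ⟨r, hr, -, hrm⟩ := Polynomial.lifts_and_natDegree_eq_and_monic hlift hmon
    refine ⟨r, hrm, ?_⟩
    rw [eval₂_eq_eval_map, hr, eval_map]
    exact hq0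
  obtain ⟨c, hc⟩ := (IsAlgClosed.algebraMap_bijective_of_isIntegral (k := K)
    (K := integralClosure K L)).2 ⟨h, h3⟩
  exact ⟨c, by rw [Subtype.ext_iff] at hc; exact hc.symm⟩

/-- Two unramified finite saturated pairs give a relation `f(x) = c g(y)`. -/
lemma exists_const [IsAlgClosed K] {p : K[X][Y]} {S₁ T₁ S₂ T₂ : Finset K}
    (h₁ : GoodPair p S₁ T₁) (h₂ : GoodPair p S₂ T₂) (hn : (Bivariate.swap p).natDegree ≠ 0)
    {x y : L} (hxy : aevalAeval x y p = 0)
    (hxK : ∀ a : K, x ≠ algebraMap K L a) (hyK : ∀ a : K, y ≠ algebraMap K L a) :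
    ∃ c : K,
      (∏ a ∈ S₁, (x - algebraMap K L a)) ^ S₂.card * (∏ b ∈ T₂, (y - algebraMap K L b)) ^ S₁.card =
      algebraMap K L c * ((∏ b ∈ T₁, (y - algebraMap K L b)) ^ S₂.card *
        (∏ a ∈ S₂, (x - algebraMap K L a)) ^ S₁.card) := by
  have hx0 : ∀ S : Finset K, (∏ a ∈ S, (x - algebraMap K L a)) ≠ 0 := fun S =>
    Finset.prod_ne_zero_iff.mpr fun a _ => sub_ne_zero.mpr (hxK a)
  have hy0 : ∀ S : Finset K, (∏ a ∈ S, (y - algebraMap K L a)) ≠ 0 := fun S =>
    Finset.prod_ne_zero_iff.mpr fun a _ => sub_ne_zero.mpr (hyK a)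
  have hcard : S₂.card * T₁.card = S₁.card * T₂.card := by
    have e1 := h₁.card
    have e2 := h₂.card
    apply Nat.eq_of_mul_eq_mul_right (Nat.pos_of_ne_zero hn)
    rw [mul_assoc, ← e1, mul_assoc, ← e2]
    ring
  set N := (∏ a ∈ S₁, (x - algebraMap K L a)) ^ S₂.card *
    (∏ b ∈ T₂, (y - algebraMap K L b)) ^ S₁.card
  set D := ((∏ b ∈ T₁, (y - algebraMap K L b)) ^ S₂.card *
        (∏ a ∈ S₂, (x - algebraMap K L a)) ^ S₁.card)
  have hD : D ≠ 0 := mul_ne_zero (pow_ne_zero _ (hy0 _)) (pow_ne_zero _ (hx0 _))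
  obtain ⟨c, hc⟩ := mem_range_of_forall_valuation (K := K) (N / D) (by
    intro V hV
    have hv : ∀ c : K, V.valuation (algebraMap K L c) ≤ 1 := fun c =>
      (V.valuation_le_one_iff _).mpr (hV c)
    obtain ⟨e₁, he₁, hx₁, hy₁⟩ := h₁.exists_e V.valuation hv hxy hxK
    obtain ⟨e₂, he₂, hx₂, hy₂⟩ := h₂.exists_e V.valuation hv hxy hxK
    rw [← V.valuation_le_one_iff, map_div₀]
    have h1 : V.valuation N = V.valuation D := by
      simp only [N, D, map_mul, map_pow, hx₁, hx₂, hy₁, hy₂, mul_pow, ← pow_mul]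
      rw [mul_comm T₂.card S₁.card, mul_comm T₁.card S₂.card, hcard, mul_comm S₂.card S₁.card]
      ac_rfl
    rw [h1, div_self]
    exact (Valuation.ne_zero_iff _).mpr hD)
  exact ⟨c, by rw [← hc]; field_simp⟩

end pairs



/-! ## Bihomogenization and affine coordinates -/

section proj

variable {K : Type*} [Field K]

lemma bihom_smul (p : K[X][Y]) (s t : K) (u v : Fin 2 → K) :
    bihom p (s • u) (t • v) = s ^ degX p * t ^ degY p * bihom p u v := by
  unfold bihom
  rw [Finset.mul_sum]
  apply Finset.sum_congr rfl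
  intro j hj
  rw [Finset.mul_sum]
  apply Finset.sum_congr rfl
  intro i hi
  rw [Finset.mem_range] at hi hj
  have h1 : s ^ degX p = s ^ (degX p - i) * s ^ i := by
    rw [← pow_add]; congr 1; omega
  have h2 : t ^ degY p = t ^ (degY p - j) * t ^ j := by
    rw [← pow_add]; congr 1; omega
  simp only [Pi.smul_apply, smul_eq_mul, mul_pow]
  rw [h1, h2]
  ring

lemma mem_curve_mk (p : K[X][Y]) {u v : Fin 2 → K} (hu : u ≠ 0) (hv : v ≠ 0) :
    (Projectivization.mk K u hu, Projectivization.mk K v hv) ∈ curve p ↔ bihom p u v = 0 := by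
  obtain ⟨s, hs⟩ := Projectivization.exists_smul_eq_mk_rep K u hu
  obtain ⟨t, ht⟩ := Projectivization.exists_smul_eq_mk_rep K v hv
  simp only [curve, Set.mem_ofPred_eq]
  rw [← hs, ← ht]
  have : bihom p (s • u) (t • v) = (s : K) ^ degX p * (t : K) ^ degY p * bihom p u v :=
    bihom_smul p s t u v
  rw [this]
  simp

/-- the point `(1 : a)` -/
noncomputable def pt (a : K) : ℙ K (Fin 2 → K) :=
  Projectivization.mk K ![1, a] (by intro h; simpa using congrFun h 0)

/-- the point `(0 : 1)` -/
noncomputable def ptInf : ℙ K (Fin 2 → K) :=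
  Projectivization.mk K ![0, 1] (by intro h; simpa using congrFun h 1)

lemma eq_ptInf_or_pt (P : ℙ K (Fin 2 → K)) : P = ptInf ∨ ∃ a, P = pt a := by
  induction P with
  | h u hu =>
    by_cases h0 : u 0 = 0
    · left
      rw [ptInf, Projectivization.mk_eq_mk_iff']
      refine ⟨u 1, ?_⟩
      ext i; fin_cases i <;> simp [h0]
    · right
      refine ⟨u 1 / u 0, ?_⟩
      rw [pt, Projectivization.mk_eq_mk_iff']
      refine ⟨u 0, ?_⟩
      ext i; fin_cases i
      · simp
      · simp; field_simp

lemma pt_injective : Function.Injective (pt : K → ℙ K (Fin 2 → K)) := by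
  intro a b h
  rw [pt, pt, Projectivization.mk_eq_mk_iff'] at h
  obtain ⟨c, hc⟩ := h
  have h0 := congrFun hc 0
  have h1 := congrFun hc 1
  simp at h0 h1
  rw [h0, one_mul] at h1
  exact h1.symm

lemma pt_ne_ptInf (a : K) : pt a ≠ ptInf := by
  intro h
  rw [pt, ptInf, Projectivization.mk_eq_mk_iff'] at h
  obtain ⟨c, hc⟩ := h
  have h0 := congrFun hc 0
  simp at h0

lemma coeff_swap (p : K[X][Y]) (i j : ℕ) :
    ((Bivariate.swap p).coeff i).coeff j = (p.coeff j).coeff i := by
  induction p using Polynomial.induction_on' with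
  | add p q hp hq => simp only [map_add, coeff_add, hp, hq]
  | monomial n g =>
    induction g using Polynomial.induction_on' with
    | add p q hp hq => simp only [map_add, coeff_add, hp, hq]
    | monomial m r =>
      rw [Bivariate.swap_monomial_monomial]
      simp only [coeff_monomial]
      split_ifs <;> simp_all [coeff_monomial]

lemma natDegree_coeff_le_degX (p : K[X][Y]) (j : ℕ) : (p.coeff j).natDegree ≤ degX p := by
  rw [natDegree_le_iff_coeff_eq_zero]
  intro i hi
  rw [← coeff_swap, coeff_eq_zero_of_natDegree_lt hi, coeff_zero]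

lemma degX_swap (p : K[X][Y]) : degX (Bivariate.swap p) = degY p := by
  rw [degX, degY, Bivariate.swap_swap_apply]

lemma degY_swap (p : K[X][Y]) : degY (Bivariate.swap p) = degX p := rfl

lemma bihom_pt_pt (p : K[X][Y]) (a b : K) : bihom p ![1, a] ![1, b] = p.evalEval a b := by
  have h1 : p.evalEval a b = (fib p a).eval b := (fib_eval p a b).symm
  have h2 : (fib p a).natDegree < degY p + 1 :=
    lt_of_le_of_lt natDegree_map_le (Nat.lt_succ_self _)
  rw [h1, eval_eq_sum_range' h2]
  unfold bihom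
  apply Finset.sum_congr rfl
  intro j _
  rw [fib, coeff_map, coe_evalRingHom, eval_eq_sum_range' (n := degX p + 1)
    (lt_of_le_of_lt (natDegree_coeff_le_degX p j) (Nat.lt_succ_self _)), Finset.sum_mul]
  apply Finset.sum_congr rfl
  intro i _
  simp

lemma bihom_swap (p : K[X][Y]) (u v : Fin 2 → K) : bihom (Bivariate.swap p) u v = bihom p v u := by
  unfold bihom
  rw [degX_swap, degY_swap, Finset.sum_comm]
  apply Finset.sum_congr rfl
  intro i _
  apply Finset.sum_congr rfl
  intro j _
  rw [coeff_swap]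
  ring

lemma bihom_pt_inf (p : K[X][Y]) (a : K) :
    bihom p ![1, a] ![0, 1] = (p.coeff (degY p)).eval a := by
  unfold bihom
  rw [Finset.sum_eq_single_of_mem (degY p) (by simp)]
  · rw [eval_eq_sum_range' (n := degX p + 1)
      (lt_of_le_of_lt (natDegree_coeff_le_degX p _) (Nat.lt_succ_self _))]
    apply Finset.sum_congr rfl
    intro i _
    simp
  · intro j hj hne
    apply Finset.sum_eq_zero
    intro i _
    rw [Finset.mem_range] at hj
    have : degY p - j ≠ 0 := by omega
    simp [this]

lemma mem_curve_pt_pt (p : K[X][Y]) (a b : K) : (pt a, pt b) ∈ curve p ↔ p.evalEval a b = 0 := by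
  rw [pt, pt, mem_curve_mk, bihom_pt_pt]

lemma mem_curve_pt_inf (p : K[X][Y]) (a : K) :
    (pt a, ptInf) ∈ curve p ↔ (p.coeff (degY p)).eval a = 0 := by
  rw [pt, ptInf, mem_curve_mk, bihom_pt_inf]

lemma mem_curve_inf_pt (p : K[X][Y]) (b : K) :
    (ptInf, pt b) ∈ curve p ↔ ((Bivariate.swap p).coeff (degY (Bivariate.swap p))).eval b = 0 := by
  rw [pt, ptInf, mem_curve_mk, ← bihom_pt_inf, bihom_swap]

end proj


/-! ## The resultant of `p` and `∂p/∂y` -/

section resultant

variable {K : Type*} [Field K]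

/-- The resultant of `p` and `∂p/∂y` with respect to `y`. -/
noncomputable def res (p : K[X][Y]) : K[X] :=
  resultant p (derivative p) p.natDegree (p.natDegree - 1)

lemma natDegree_det_le {n : ℕ} (M : Matrix (Fin n) (Fin n) K[X]) (d : ℕ)
    (hM : ∀ i j, (M i j).natDegree ≤ d) : M.det.natDegree ≤ n * d := by
  rw [Matrix.det_apply]
  apply natDegree_sum_le_of_forall_le
  intro σ _
  refine (natDegree_smul_le _ _).trans ((natDegree_prod_le _ _).trans ?_)
  calc ∑ i, (M (σ i) i).natDegree ≤ ∑ _i : Fin n, d := Finset.sum_le_sum fun i _ => hM _ _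
    _ = n * d := by simp

lemma natDegree_res_le (p : K[X][Y]) :
    (res p).natDegree ≤ (p.natDegree + (p.natDegree - 1)) * degX p := by
  unfold res resultant
  apply natDegree_det_le
  intro i j
  have h0 : ∀ k, ((derivative p).coeff k).natDegree ≤ degX p := by
    intro k
    rw [coeff_derivative]
    have : (k : K[X]) + 1 = C ((k : K) + 1) := by simp
    rw [this]
    exact (natDegree_mul_C_le _ _).trans (natDegree_coeff_le_degX p _)
  induction j using Fin.addCases with
  | left j =>
    simp only [sylvester, Matrix.of_apply, Fin.addCases_left]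
    split_ifs
    · exact h0 _
    · simp
  | right j =>
    simp only [sylvester, Matrix.of_apply, Fin.addCases_right]
    split_ifs
    · exact natDegree_coeff_le_degX p _
    · simp

variable [CharZero K]

lemma res_ne_zero {p : K[X][Y]} (hp : Irreducible p) (h0 : p.natDegree ≠ 0) : res p ≠ 0 := by
  set φ := algebraMap K[X] (FractionRing K[X])
  have hφ : Function.Injective φ := IsFractionRing.injective _ _
  have hprim : p.IsPrimitive := hp.isPrimitive h0
  have hirr : Irreducible (p.map φ) :=
    (hprim.irreducible_iff_irreducible_map_fraction_map).mp hp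
  have hcz : CharZero (FractionRing K[X]) := charZero_of_injective_algebraMap hφ
  have hsep : (p.map φ).Separable := hirr.separable
  intro h
  have h1 : φ (res p) = 0 := by rw [h, map_zero]
  rw [res, ← resultant_map_map, ← derivative_map] at h1
  have hd : (p.map φ).natDegree = p.natDegree := natDegree_map_eq_of_injective hφ p
  have hd' : (derivative (p.map φ)).natDegree = p.natDegree - 1 := by
    rw [natDegree_derivative, hd]
  rw [← hd', ← hd] at h1
  rw [resultant_eq_zero_iff] at h1
  exact h1.2 hsep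

lemma separable_of_res {p : K[X][Y]} {a : K} (h0 : fib p a ≠ 0)
    (hdeg : (fib p a).natDegree = p.natDegree)
    (hr : (res p).eval a ≠ 0) : (fib p a).Separable := by
  by_contra hns
  apply hr
  rw [← coe_evalRingHom, res, ← resultant_map_map, ← derivative_map]
  change resultant (fib p a) (derivative (fib p a)) _ _ = 0
  have hd' : (derivative (fib p a)).natDegree = p.natDegree - 1 := by
    rw [natDegree_derivative, hdeg]
  rw [← hd', ← hdeg, resultant_eq_zero_iff]
  exact ⟨Or.inl h0, hns⟩

end resultant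


/-! ## From two unramified finite saturated sets to a non-constant separated multiple -/

section function_field

variable {K : Type*} [Field K]

lemma not_dvd_C {p : K[X][Y]} (hx : p ∉ Set.range (C : K[X] → K[X][Y])) {f : K[X]} (hf : f ≠ 0) :
    ¬ p ∣ C f := by
  intro h
  have h1 : p.natDegree ≤ (C f : K[X][Y]).natDegree := natDegree_le_of_dvd h (by simpa using hf)
  rw [natDegree_C, Nat.le_zero] at h1
  exact hx ⟨p.coeff 0, (eq_C_of_natDegree_eq_zero h1).symm⟩

lemma swap_not_mem {p : K[X][Y]} (hy : p ∉ Set.range (Polynomial.map (C : K →+* K[X]))) :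
    Bivariate.swap p ∉ Set.range (C : K[X] → K[X][Y]) := by
  rintro ⟨g, hg⟩
  apply hy
  refine ⟨g, ?_⟩
  rw [← Bivariate.swap_C, hg, Bivariate.swap_swap_apply]

lemma swap_dvd {p q : K[X][Y]} (h : p ∣ q) :
    (Bivariate.swap p : K[X][Y]) ∣ Bivariate.swap q := by
  obtain ⟨r, rfl⟩ := h
  exact ⟨Bivariate.swap r, map_mul _ _ _⟩

lemma not_dvd_map_C {p : K[X][Y]} (hy : p ∉ Set.range (Polynomial.map (C : K →+* K[X])))
    {f : K[X]} (hf : f ≠ 0) : ¬ p ∣ f.map C := by
  intro h
  apply not_dvd_C (swap_not_mem hy) hf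
  have := swap_dvd h
  rwa [Bivariate.swap_map_C] at this

lemma exists_function_field_aux {K : Type u} [Field K] {p : K[X][Y]} {R : Type u} [CommRing R]
    [IsDomain R] [Algebra K R] (π : K[X][Y] →ₐ[K] R) (hπ : ∀ q, π q = 0 ↔ p ∣ q) :
    ∃ (L : Type u) (_ : Field L) (_ : Algebra K L) (x y : L),
      ∀ q : K[X][Y], aevalAeval x y q = 0 ↔ p ∣ q := by
  let φ : K[X][Y] →ₐ[K] FractionRing R := (IsScalarTower.toAlgHom K R (FractionRing R)).comp π
  have hφ : ∀ q : K[X][Y], φ q = 0 ↔ p ∣ q := by
    intro q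
    rw [← hπ q]
    simp [φ]
  refine ⟨FractionRing R, inferInstance, inferInstance, φ (C X), φ Y, ?_⟩
  have hφe : aevalAeval (φ (C X)) (φ Y) = φ := (aevalAevalEquiv K _).right_inv φ
  intro q
  rw [hφe]
  exact hφ q

lemma exists_function_field {K : Type u} [Field K] {p : K[X][Y]} (hp : Irreducible p) :
    ∃ (L : Type u) (_ : Field L) (_ : Algebra K L) (x y : L),
      ∀ q : K[X][Y], aevalAeval x y q = 0 ↔ p ∣ q := by
  have hprime : Prime p := hp.prime
  have hI : (Ideal.span {p}).IsPrime := (Ideal.span_singleton_prime hp.ne_zero).mpr hprime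
  refine exists_function_field_aux (R := K[X][Y] ⧸ Ideal.span {p})
    (Ideal.Quotient.mkₐ K (Ideal.span {p})) ?_
  intro q
  rw [Ideal.Quotient.mkₐ_eq_mk, Ideal.Quotient.eq_zero_iff_mem, Ideal.mem_span_singleton]

lemma inX_algebraMap (f : K[X]) :
    inX K (algebraMap K[X] (FractionRing K[X]) f) =
      algebraMap K[X][Y] (FractionRing K[X][Y]) (C f) := by
  unfold inX IsFractionRing.map
  rw [IsLocalization.map_eq]

lemma inY_algebraMap (f : K[X]) :
    inY K (algebraMap K[X] (FractionRing K[X]) f) =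
      algebraMap K[X][Y] (FractionRing K[X][Y]) (f.map C) := by
  unfold inY IsFractionRing.map
  rw [IsLocalization.map_eq]
  rfl

lemma mem_multiplesOf {p : K[X][Y]} (hp : Irreducible p) {q : FractionRing K[X][Y]} {N D : K[X][Y]}
    (hD : ¬ p ∣ D) (hN : p ∣ N)
    (hq : q * algebraMap K[X][Y] (FractionRing K[X][Y]) D =
      algebraMap K[X][Y] (FractionRing K[X][Y]) N) : q ∈ multiplesOf p := by
  have hinj : Function.Injective (algebraMap K[X][Y] (FractionRing K[X][Y])) :=
    IsFractionRing.injective _ _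
  have hden : algebraMap K[X][Y] (FractionRing K[X][Y]) (IsFractionRing.den K[X][Y] q) ≠ 0 :=
    IsFractionRing.to_map_ne_zero_of_mem_nonZeroDivisors (IsFractionRing.den K[X][Y] q).2
  have hq' := IsFractionRing.mk'_num_den' K[X][Y] q
  rw [div_eq_iff hden] at hq'
  have h1 : IsFractionRing.num K[X][Y] q * D = N * (IsFractionRing.den K[X][Y] q : K[X][Y]) := by
    apply hinj
    rw [map_mul, map_mul, hq', ← hq]
    ring
  have h2 : p ∣ IsFractionRing.num K[X][Y] q * D := by
    rw [h1]; exact hN.mul_right _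
  have h3 : p ∣ IsFractionRing.num K[X][Y] q := (hp.prime.dvd_or_dvd h2).resolve_right hD
  refine ⟨fun h4 => hp.not_isUnit ?_, h3⟩
  exact (IsFractionRing.num_den_reduced K[X][Y] q) h3 h4

variable [IsAlgClosed K]

/-- The key step: for an irreducible `p` not in `K[x]` or `K[y]`, two disjoint nonempty unramified
saturated pairs produce a non-constant separated multiple. -/
lemma false_of_two_pairs {p : K[X][Y]} (hp : Irreducible p)
    (hx : p ∉ Set.range (C : K[X] → K[X][Y]))
    (hy : p ∉ Set.range (Polynomial.map (C : K →+* K[X])))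
    (hF : IsTrivialF p)
    {S₁ T₁ S₂ T₂ : Finset K} (h₁ : GoodPair p S₁ T₁) (h₂ : GoodPair p S₂ T₂)
    (hS₁ : S₁.Nonempty) (hS₂ : S₂.Nonempty) (hdisj : Disjoint S₁ S₂) : False := by
  obtain ⟨L, _, _, x, y, hL⟩ := exists_function_field hp
  have hxK : ∀ a : K, x ≠ algebraMap K L a := by
    intro a h
    apply not_dvd_C hx (X_sub_C_ne_zero a)
    rw [← hL]
    simp [h]
  have hyK : ∀ a : K, y ≠ algebraMap K L a := by
    intro a h
    apply not_dvd_map_C hy (X_sub_C_ne_zero a)
    rw [← hL, aevalAeval_map_C]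
    simp [h]
  have hn : (Bivariate.swap p).natDegree ≠ 0 := by
    intro h
    exact swap_not_mem hy ⟨_, (eq_C_of_natDegree_eq_zero h).symm⟩
  obtain ⟨c, hc⟩ := exists_const h₁ h₂ hn ((hL p).mpr dvd_rfl) hxK hyK
  let A : Finset K → K[X] := fun S => ∏ a ∈ S, (X - C a)
  have hA0 : ∀ S, A S ≠ 0 := fun S => Finset.prod_ne_zero_iff.mpr fun a _ => X_sub_C_ne_zero a
  have hAx : ∀ (S : Finset K) (z : L), aeval z (A S) = ∏ a ∈ S, (z - algebraMap K L a) := by
    intro S z
    simp [A, map_prod]
  set F₁ := A S₁ ^ S₂.card with hF₁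
  set F₂ := A S₂ ^ S₁.card with hF₂
  set G₁ := A T₁ ^ S₂.card with hG₁
  set G₂ := A T₂ ^ S₁.card with hG₂
  have hF₂0 : F₂ ≠ 0 := pow_ne_zero _ (hA0 _)
  have hG₂0 : G₂ ≠ 0 := pow_ne_zero _ (hA0 _)
  set N : K[X][Y] := C F₁ * G₂.map C - C (C c) * (G₁.map C * C F₂) with hN
  set D : K[X][Y] := C F₂ * G₂.map C with hD
  have hpN : p ∣ N := by
    rw [← hL, hN, map_sub, map_mul, map_mul, map_mul, aevalAeval_map_C, aevalAeval_map_C,
      aevalAeval_C, aevalAeval_C, aevalAeval_C, aeval_C, hF₁, hF₂, hG₁, hG₂, map_pow, map_pow,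
      map_pow, map_pow, hAx, hAx, hAx, hAx, hc, sub_self]
  have hpD : ¬ p ∣ D := by
    intro h
    rcases hp.prime.dvd_or_dvd h with h | h
    · exact not_dvd_C hx hF₂0 h
    · exact not_dvd_map_C hy hG₂0 h
  set ι := algebraMap K[X] (FractionRing K[X]) with hι
  have hιinj : Function.Injective ι := IsFractionRing.injective _ _
  set f : FractionRing K[X] := ι F₁ / ι F₂ with hf
  set g : FractionRing K[X] := ι (C c * G₁) / ι G₂ with hg
  have hmem : (f, g) ∈ separatedMultiples p := by
    apply mem_multiplesOf hp hpD hpN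
    have hinj : Function.Injective (algebraMap K[X][Y] (FractionRing K[X][Y])) :=
      IsFractionRing.injective _ _
    have h1 : algebraMap K[X][Y] (FractionRing K[X][Y]) (C F₂) ≠ 0 := by
      rw [Ne, map_eq_zero_iff _ hinj, C_eq_zero]; exact hF₂0
    have h2 : algebraMap K[X][Y] (FractionRing K[X][Y]) (G₂.map C) ≠ 0 := by
      rw [Ne, map_eq_zero_iff _ hinj, Polynomial.map_eq_zero_iff C_injective]; exact hG₂0
    simp only [hf, hg, map_div₀, hι, inX_algebraMap, inY_algebraMap, hN, hD, map_sub, map_mul,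
      Polynomial.map_C]
    field_simp
  obtain ⟨c', hc'⟩ := hF _ hmem
  have hfc : f = algebraMap K (FractionRing K[X]) c' := congrArg Prod.fst hc'
  have hFeq : F₁ = C c' * F₂ := by
    apply hιinj
    have h2 : ι F₂ ≠ 0 := by rw [Ne, map_eq_zero_iff _ hιinj]; exact hF₂0
    rw [hf, div_eq_iff h2] at hfc
    rw [hfc, map_mul, IsScalarTower.algebraMap_apply K K[X] (FractionRing K[X])]
    rfl
  obtain ⟨a, ha⟩ := hS₁
  have h1 := congrArg (eval a) hFeq
  have hAa : (A S₁).eval a = 0 := by
    simp only [A, eval_prod]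
    exact Finset.prod_eq_zero ha (by simp)
  have hAa2 : (A S₂).eval a ≠ 0 := by
    simp only [A, eval_prod]
    rw [Finset.prod_ne_zero_iff]
    intro b hb
    simp only [eval_sub, eval_X, eval_C]
    intro h
    rw [sub_eq_zero] at h
    subst h
    exact (Finset.disjoint_left.mp hdisj ha) hb
  rw [hF₁, hF₂, eval_mul, eval_C, eval_pow, eval_pow, hAa,
    zero_pow (Finset.card_ne_zero.mpr hS₂)] at h1
  have hc'0 : c' = 0 := by
    rcases mul_eq_zero.mp h1.symm with h | h
    · exact h
    · exact absurd h (pow_ne_zero _ hAa2)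
  rw [hc'0, C_0, zero_mul] at hFeq
  exact pow_ne_zero _ (hA0 _) hFeq

end function_field


/-! ## Counting orbits -/

section orbits

variable {K : Type*} [Field K]

/-- The orbits (finite or not) meeting the set of points whose first coordinate lies in `B` or whose
second coordinate lies in `B'`. -/
def orbitsMeeting (p : K[X][Y]) (B B' : Set (ℙ K (Fin 2 → K))) :
    Set (moveGraph p).ConnectedComponent :=
  {c | ∃ P ∈ c.supp, P.1.1 ∈ B ∨ P.1.2 ∈ B'}

lemma same_orbit {p : K[X][Y]} {c : (moveGraph p).ConnectedComponent} {P Q : curve p}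
    (hP : P ∈ c.supp) (h : P.1.1 = Q.1.1 ∨ P.1.2 = Q.1.2) : Q ∈ c.supp := by
  by_cases hPQ : P = Q
  · exact hPQ ▸ hP
  · have hadj : (moveGraph p).Adj P Q := ⟨hPQ, h⟩
    rw [SimpleGraph.ConnectedComponent.mem_supp_iff] at hP ⊢
    rw [← hP]
    exact (SimpleGraph.ConnectedComponent.connectedComponentMk_eq_of_adj hadj).symm

lemma orbitsMeeting_ncard (p : K[X][Y]) {B B' : Set (ℙ K (Fin 2 → K))} (hB : B.Finite)
    (hB' : B'.Finite) :
    (orbitsMeeting p B B').Finite ∧ (orbitsMeeting p B B').ncard ≤ B.ncard + B'.ncard := by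
  classical
  set W : Set (ℙ K (Fin 2 → K) ⊕ ℙ K (Fin 2 → K)) := Sum.inl '' B ∪ Sum.inr '' B' with hW
  have hWfin : W.Finite := (hB.image _).union (hB'.image _)
  have hchoice : ∀ c : (moveGraph p).ConnectedComponent, ∃ w : ℙ K (Fin 2 → K) ⊕ ℙ K (Fin 2 → K),
      c ∈ orbitsMeeting p B B' → w ∈ W ∧ ∃ P ∈ c.supp, w = Sum.inl P.1.1 ∨ w = Sum.inr P.1.2 := by
    intro c
    by_cases hc : c ∈ orbitsMeeting p B B'
    · obtain ⟨P, hP, h | h⟩ := hc
      · exact ⟨Sum.inl P.1.1, fun _ => ⟨Or.inl ⟨_, h, rfl⟩, P, hP, Or.inl rfl⟩⟩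
      · exact ⟨Sum.inr P.1.2, fun _ => ⟨Or.inr ⟨_, h, rfl⟩, P, hP, Or.inr rfl⟩⟩
    · exact ⟨Sum.inl ptInf, fun h => absurd h hc⟩
  choose f hf using hchoice
  have hmaps : Set.MapsTo f (orbitsMeeting p B B') W := fun c hc => (hf c hc).1
  have hinj : Set.InjOn f (orbitsMeeting p B B') := by
    intro c hc c' hc' heq
    obtain ⟨P, hP, hP'⟩ := (hf c hc).2
    obtain ⟨Q, hQ, hQ'⟩ := (hf c' hc').2
    have hPQ : P.1.1 = Q.1.1 ∨ P.1.2 = Q.1.2 := by
      rcases hP' with h | h <;> rcases hQ' with h' | h' <;> rw [h, h'] at heq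
      · left; exact Sum.inl.inj heq
      · exact absurd heq (by simp)
      · exact absurd heq (by simp)
      · right; exact Sum.inr.inj heq
    exact SimpleGraph.ConnectedComponent.eq_of_common_vertex (same_orbit hP hPQ) hQ
  refine ⟨Set.Finite.of_injOn hmaps hinj hWfin, ?_⟩
  calc (orbitsMeeting p B B').ncard ≤ W.ncard := Set.ncard_le_ncard_of_injOn f hmaps hinj hWfin
    _ ≤ (Sum.inl '' B).ncard + (Sum.inr '' B').ncard := Set.ncard_union_le _ _
    _ ≤ B.ncard + B'.ncard := Nat.add_le_add (Set.ncard_image_le hB) (Set.ncard_image_le hB')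

variable [CharZero K] [IsAlgClosed K]

/-- The bad first coordinates: the point at infinity and the zeros of the resultant. -/
def bad (p : K[X][Y]) : Set (ℙ K (Fin 2 → K)) := insert ptInf (pt '' {a | (res p).IsRoot a})

omit [IsAlgClosed K] in
lemma bad_ncard {p : K[X][Y]} (hp : Irreducible p) (h0 : p.natDegree ≠ 0) :
    (bad p).Finite ∧ (bad p).ncard ≤ 1 + (2 * degY p - 1) * degX p := by
  classical
  have hr := res_ne_zero hp h0
  have hfin : {a | (res p).IsRoot a}.Finite := by
    refine (res p).roots.toFinset.finite_toSet.subset ?_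
    intro a ha
    simpa [hr] using ha
  refine ⟨(hfin.image _).insert _, ?_⟩
  have h1 : {a | (res p).IsRoot a}.ncard ≤ (res p).natDegree := by
    have : {a | (res p).IsRoot a} = ((res p).roots.toFinset : Set K) := by
      ext a; simp [hr]
    rw [this, Set.ncard_coe_finset]
    exact (Multiset.toFinset_card_le _).trans (card_roots' _)
  have h2 := natDegree_res_le p
  have h3 : p.natDegree + (p.natDegree - 1) = 2 * degY p - 1 := by unfold degY; omega
  rw [h3] at h2
  calc (bad p).ncard ≤ (pt '' {a | (res p).IsRoot a}).ncard + 1 := Set.ncard_insert_le _ _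
    _ ≤ {a | (res p).IsRoot a}.ncard + 1 := by
        gcongr; exact Set.ncard_image_le hfin
    _ ≤ 1 + (2 * degY p - 1) * degX p := by omega

omit [IsAlgClosed K] in
/-- Away from the bad orbits, the set of affine coordinates of a finite orbit is a good pair. -/
lemma exists_goodPair {p : K[X][Y]} 
    {c : (moveGraph p).ConnectedComponent} (hc : c.supp.Finite)
    (hbad : c ∉ orbitsMeeting p (bad p) (bad (Bivariate.swap p))) :
    ∃ S T : Finset K, S.Nonempty ∧ GoodPair p S T ∧
      ∀ a ∈ S, ∃ P ∈ c.supp, P.1.1 = pt a := by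
  have hb1 : ∀ P ∈ c.supp, P.1.1 ∉ bad p := fun P hP h => hbad ⟨P, hP, Or.inl h⟩
  have hb2 : ∀ P ∈ c.supp, P.1.2 ∉ bad (Bivariate.swap p) := fun P hP h => hbad ⟨P, hP, Or.inr h⟩
  have hS : {a : K | ∃ P ∈ c.supp, P.1.1 = pt a}.Finite := by
    refine ((hc.image (fun P => P.1.1)).preimage (pt_injective.injOn)).subset ?_
    rintro a ⟨P, hP, h⟩
    exact ⟨P, hP, h⟩
  have hT : {b : K | ∃ P ∈ c.supp, P.1.2 = pt b}.Finite := by
    refine ((hc.image (fun P => P.1.2)).preimage (pt_injective.injOn)).subset ?_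
    rintro a ⟨P, hP, h⟩
    exact ⟨P, hP, h⟩
  have hfull : ∀ (q : K[X][Y]) (a : K), (q.coeff (degY q)).eval a ≠ 0 →
      (fib q a).natDegree = q.natDegree ∧ fib q a ≠ 0 := by
    intro q a h
    have h1 : (fib q a).coeff q.natDegree ≠ 0 := by
      rw [fib, coeff_map]; exact h
    refine ⟨le_antisymm natDegree_map_le (le_natDegree_of_ne_zero h1), ?_⟩
    intro h0
    rw [h0] at h1
    exact h1 (coeff_zero _)
  refine ⟨hS.toFinset, hT.toFinset, ?_, ⟨?_, ?_, ?_⟩, ?_⟩
  · obtain ⟨P, hP⟩ := c.nonempty_supp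
    rcases eq_ptInf_or_pt P.1.1 with h | ⟨a, ha⟩
    · exact absurd (h ▸ Set.mem_insert _ _) (hb1 P hP)
    · exact ⟨a, hS.mem_toFinset.mpr ⟨P, hP, ha⟩⟩
  · intro a b hab
    rw [Set.Finite.mem_toFinset, Set.Finite.mem_toFinset]
    let Q : curve p := ⟨(pt a, pt b), (mem_curve_pt_pt p a b).mpr hab⟩
    constructor
    · rintro ⟨P, hP, h⟩
      exact ⟨Q, same_orbit hP (Or.inl h), rfl⟩
    · rintro ⟨P, hP, h⟩
      exact ⟨Q, same_orbit hP (Or.inr h), rfl⟩
  · intro a ha
    rw [Set.Finite.mem_toFinset] at ha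
    obtain ⟨P, hP, h⟩ := ha
    have h1 : (p.coeff (degY p)).eval a ≠ 0 := by
      intro h0
      let Q : curve p := ⟨(pt a, ptInf), (mem_curve_pt_inf p a).mpr h0⟩
      exact hb2 Q (same_orbit hP (Or.inl h)) (Set.mem_insert _ _)
    obtain ⟨h2, h3⟩ := hfull p a h1
    refine ⟨h2, h3, separable_of_res h3 h2 ?_⟩
    intro h4
    apply hb1 P hP
    rw [h]
    exact Set.mem_insert_of_mem _ ⟨a, h4, rfl⟩
  · intro b hb
    rw [Set.Finite.mem_toFinset] at hb
    obtain ⟨P, hP, h⟩ := hb
    have h1 : ((Bivariate.swap p).coeff (degY (Bivariate.swap p))).eval b ≠ 0 := by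
      intro h0
      let Q : curve p := ⟨(ptInf, pt b), (mem_curve_inf_pt p b).mpr h0⟩
      exact hb1 Q (same_orbit hP (Or.inr h)) (Set.mem_insert _ _)
    obtain ⟨h2, h3⟩ := hfull (Bivariate.swap p) b h1
    refine ⟨h2, h3, separable_of_res h3 h2 ?_⟩
    intro h4
    apply hb2 P hP
    rw [h]
    exact Set.mem_insert_of_mem _ ⟨b, h4, rfl⟩
  · intro a ha
    rw [Set.Finite.mem_toFinset] at ha
    exact ha

/-- The orbits, one of the coordinates of which is bad, plus at most one further orbit, exhaust the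
finite orbits. -/
theorem main {p : K[X][Y]} (hp : Irreducible p)
    (hx : p ∉ Set.range (C : K[X] → K[X][Y]))
    (hy : p ∉ Set.range (Polynomial.map (C : K →+* K[X])))
    (hF : IsTrivialF p) :
    (finiteOrbits p).Finite ∧ (finiteOrbits p).ncard ≤
      3 + (2 * degY p - 1) * degX p + (2 * degX p - 1) * degY p := by
  have hpn : p.natDegree ≠ 0 := fun h => hx ⟨_, (eq_C_of_natDegree_eq_zero h).symm⟩
  have hsn : (Bivariate.swap p).natDegree ≠ 0 := fun h =>
    swap_not_mem hy ⟨_, (eq_C_of_natDegree_eq_zero h).symm⟩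
  have hps : Irreducible (Bivariate.swap p) :=
    (MulEquiv.irreducible_iff (Bivariate.swap (R := K))).mpr hp
  obtain ⟨hB, hB'⟩ := bad_ncard hp hpn
  obtain ⟨hC, hC'⟩ := bad_ncard hps hsn
  rw [degX_swap, degY_swap] at hC'
  obtain ⟨hM, hM'⟩ := orbitsMeeting_ncard p hB hC
  set G := {c ∈ finiteOrbits p | c ∉ orbitsMeeting p (bad p) (bad (Bivariate.swap p))} with hG
  have hGsub : G.Subsingleton := by
    rintro c ⟨hc, hcb⟩ c' ⟨hc', hcb'⟩
    by_contra hne
    obtain ⟨S₁, T₁, hS₁, h₁, hP₁⟩ := exists_goodPair hc hcb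
    obtain ⟨S₂, T₂, hS₂, h₂, hP₂⟩ := exists_goodPair hc' hcb'
    refine false_of_two_pairs hp hx hy hF h₁ h₂ hS₁ hS₂ ?_
    rw [Finset.disjoint_left]
    intro a ha ha'
    obtain ⟨P, hP, hPa⟩ := hP₁ a ha
    obtain ⟨Q, hQ, hQa⟩ := hP₂ a ha'
    exact hne (SimpleGraph.ConnectedComponent.eq_of_common_vertex
      (same_orbit hP (Or.inl (hPa.trans hQa.symm))) hQ)
  have hsub : finiteOrbits p ⊆ G ∪ orbitsMeeting p (bad p) (bad (Bivariate.swap p)) := by
    intro c hc
    by_cases h : c ∈ orbitsMeeting p (bad p) (bad (Bivariate.swap p))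
    · exact Or.inr h
    · exact Or.inl ⟨hc, h⟩
  have hGfin : Finite G := hGsub.finite.to_subtype
  have hfin : (G ∪ orbitsMeeting p (bad p) (bad (Bivariate.swap p))).Finite :=
    hGsub.finite.union hM
  refine ⟨hfin.subset hsub, ?_⟩
  calc (finiteOrbits p).ncard ≤ _ := Set.ncard_le_ncard hsub hfin
    _ ≤ G.ncard + (orbitsMeeting p (bad p) (bad (Bivariate.swap p))).ncard := Set.ncard_union_le _ _
    _ ≤ 1 + ((1 + (2 * degY p - 1) * degX p) + (1 + (2 * degX p - 1) * degY p)) := by
        gcongr
        · exact Set.ncard_le_one_iff_subsingleton.mpr hGsub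
        · exact hM'.trans (Nat.add_le_add hB' hC')
    _ = _ := by ring

end orbits

end Pool.Agent.Helper19.Orbits
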